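import Pool.Agent.K4W.StmtsF

/-!
# Squad K4W, row CHC: the number of `H` in a cell
-/

set_option autoImplicit false

open scoped Classical

namespace Pool.Agent.K4W.H26

open Pool.Agent.K4W
open Pool.Agent.Helper69_Weyl (ee W)
open Pool.Agent.VM (Nr)

theorem chc_num (z X Q : ℝ) (hz : 200 ≤ z) (hX : X = 8 * z ^ 127002) (hQ1 : z ^ 111900 ≤ Q)
    (hQ2 : Q ≤ z ^ 144200) :
    768 * ((2 * X) / Q + 1) * (2 * (1 / z ^ 130216) * Q + 1) ≤ z ^ 15104 := by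
  have hz0 : 0 < z := by linarith
  have hz1 : 1 ≤ z := by linarith
  have hp : ∀ n : ℕ, 0 < z ^ n := fun n => pow_pos hz0 n
  have hQ0 : 0 < Q := lt_of_lt_of_le (hp _) hQ1
  obtain ⟨u, hu⟩ : ∃ u : ℝ, u = z ^ 15102 := ⟨_, rfl⟩
  have hu1 : 1 ≤ u := by rw [hu]; exact one_le_pow₀ hz1
  have h1 : (2 * X) / Q ≤ 16 * u := by
    rw [div_le_iff₀ hQ0, hX, hu]
    have e : z ^ 127002 = z ^ 15102 * z ^ 111900 := by rw [← pow_add]
    rw [e]
    have := mul_le_mul_of_nonneg_left hQ1 (hp 15102).le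
    linarith
  have h2 : (2 * X) / Q * (2 * (1 / z ^ 130216) * Q) ≤ 32 := by
    have e : (2 * X) / Q * (2 * (1 / z ^ 130216) * Q) = 4 * X / z ^ 130216 := by
      field_simp; ring
    rw [e, div_le_iff₀ (hp _), hX]
    have : z ^ 127002 ≤ z ^ 130216 := pow_le_pow_right₀ hz1 (by norm_num)
    linarith
  have h3 : 2 * (1 / z ^ 130216) * Q ≤ 2 * u := by
    have e : 2 * (1 / z ^ 130216) * Q = 2 * Q / z ^ 130216 := by ring
    rw [e, div_le_iff₀ (hp _)]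
    have e2 : z ^ 144200 = z ^ 13984 * z ^ 130216 := by rw [← pow_add]
    have h4 : z ^ 13984 ≤ u := by rw [hu]; exact pow_le_pow_right₀ hz1 (by norm_num)
    have h5 := mul_le_mul_of_nonneg_right h4 (hp 130216).le
    rw [e2] at hQ2
    linarith
  have h6 : z ^ 15104 = u * z ^ 2 := by rw [hu, ← pow_add]
  have h7 : 768 * ((2 * X) / Q + 1) * (2 * (1 / z ^ 130216) * Q + 1) =
      768 * ((2 * X) / Q * (2 * (1 / z ^ 130216) * Q) + (2 * X) / Q +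
        2 * (1 / z ^ 130216) * Q + 1) := by ring
  rw [h6, h7]
  have h8 : (40000 : ℝ) ≤ z ^ 2 := by nlinarith
  nlinarith

theorem chc (c48 : C48Stmt) : ChcStmt := by
  refine ⟨200, ?_⟩
  intro Z hZ N Q a t c hP
  obtain ⟨-, -, hQ1, hQ2, hgcd, hta⟩ := hP
  have hZR : (200 : ℝ) ≤ (Z : ℝ) := by exact_mod_cast hZ
  have hz0 : (0 : ℝ) < Z := by linarith
  have hQ1' : (Z : ℝ) ^ 111900 ≤ (Q : ℝ) := by
    have : ((Z ^ 111900 : ℕ) : ℝ) ≤ (Q : ℝ) := Nat.cast_le.2 hQ1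
    rwa [Nat.cast_pow] at this
  have hQ2' : (Q : ℝ) ≤ (Z : ℝ) ^ 144200 := by
    have : (Q : ℝ) ≤ ((Z ^ 144200 : ℕ) : ℝ) := Nat.cast_le.2 hQ2
    rwa [Nat.cast_pow] at this
  have hQpos : 1 ≤ Q := by
    have : (0 : ℝ) < (Q : ℝ) := lt_of_lt_of_le (pow_pos hz0 _) hQ1'
    exact_mod_cast this
  obtain ⟨S, hS⟩ : ∃ S : Finset ℤ, S = (Hs (Xz Z)).filter
    (fun H : ℤ => Nr (48 * t * (H : ℝ) - c) (1 / (Z : ℝ) ^ 130216)) := ⟨_, rfl⟩
  rw [← hS]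
  rcases S.eq_empty_or_nonempty with hE | ⟨H₀, hH₀⟩
  · rw [hE, Finset.card_empty, Nat.cast_zero]
    exact (pow_pos hz0 _).le
  · obtain ⟨X, hX⟩ : ∃ X : ℕ, X = Xz Z := ⟨_, rfl⟩
    have hmem : ∀ H, H ∈ S → -(X : ℤ) ≤ H ∧ H ≤ X ∧
        Nr (48 * t * (H : ℝ) - c) (1 / (Z : ℝ) ^ 130216) := by
      intro H hH
      rw [hS, Finset.mem_filter, Hs, Finset.mem_filter, Finset.mem_Icc, ← hX] at hH
      exact ⟨hH.1.1.1, hH.1.1.2, hH.2⟩
    have hδ : (0 : ℝ) ≤ 2 * (1 / (Z : ℝ) ^ 130216) := by positivity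
    have hcard : S.card ≤ ((Finset.Icc (-((2 * X : ℕ) : ℤ)) ((2 * X : ℕ) : ℤ)).filter
        (fun m : ℤ => Nr (48 * t * (m : ℝ)) (2 * (1 / (Z : ℝ) ^ 130216)))).card := by
      apply Finset.card_le_card_of_injOn (fun H => H - H₀)
      · intro H hH
        obtain ⟨a1, a2, k1, a3⟩ := hmem H hH
        obtain ⟨b1, b2, k2, b3⟩ := hmem H₀ hH₀
        simp only [Finset.coe_filter, Finset.mem_Icc, Set.mem_ofPred_eq]
        refine ⟨⟨by push_cast; omega, by push_cast; omega⟩, ⟨k1 - k2, ?_⟩⟩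
        have e : 48 * t * ((H - H₀ : ℤ) : ℝ) - ((k1 - k2 : ℤ) : ℝ) =
            (48 * t * (H : ℝ) - c - (k1 : ℝ)) - (48 * t * (H₀ : ℝ) - c - (k2 : ℝ)) := by
          push_cast; ring
        rw [e]
        refine (abs_sub _ _).trans ?_
        linarith
      · intro H _ H' _ h
        have h' : H - H₀ = H' - H₀ := h
        omega
    have h1 := c48 t (2 * (1 / (Z : ℝ) ^ 130216)) a Q (2 * X) hQpos hgcd hta hδ
    have h2 : (S.card : ℝ) ≤ (((Finset.Icc (-((2 * X : ℕ) : ℤ)) ((2 * X : ℕ) : ℤ)).filter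
        (fun m : ℤ => Nr (48 * t * (m : ℝ)) (2 * (1 / (Z : ℝ) ^ 130216)))).card : ℝ) :=
      Nat.cast_le.2 hcard
    refine h2.trans (h1.trans ?_)
    have h3 := chc_num (Z : ℝ) (X : ℝ) (Q : ℝ) hZR
      (by rw [hX, Xz, Nat.cast_mul, Nat.cast_pow]; rfl) hQ1' hQ2'
    have e3 : ((2 * X : ℕ) : ℝ) = 2 * (X : ℝ) := by push_cast; ring
    rw [e3]
    exact h3

end Pool.Agent.K4W.H26
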